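import Pool.Agent.P.MP_f298ee_co.Final

/-!
Monotone flashes and rainbows: `f(l,k) ≤ C k^(2/3+ε) l^(k-1)`, so `f(l,k) = o(k) l^(k-1)`
uniformly in `l`.
-/

namespace Pool.Agent.Results.MP_f298ee_co.FlashRainbow

/-- An `l`-flash: vertices `x 0 < ... < x l` whose `l` consecutive edges have equal colours. -/
def HasFlash {n : ℕ} (c : Sym2 (Fin n) → ℕ) (l : ℕ) : Prop :=
  ∃ x : Fin (l + 1) → Fin n, StrictMono x ∧
    ∀ i j : Fin l, c s(x i.castSucc, x i.succ) = c s(x j.castSucc, x j.succ)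

/-- A `k`-rainbow: vertices `y 0 < ... < y k` whose `k` consecutive edges have distinct colours. -/
def HasRainbow {n : ℕ} (c : Sym2 (Fin n) → ℕ) (k : ℕ) : Prop :=
  ∃ y : Fin (k + 1) → Fin n, StrictMono y ∧
    Function.Injective fun i : Fin k => c s(y i.castSucc, y i.succ)

open Pool.Agent.P.MP_f298ee_co in
theorem aux {l k n : ℕ} {x : ℝ} (h : Bd l k x) (hn : x * (l : ℝ) ^ (k - 1) < n)
    (c : Sym2 (Fin n) → ℕ) : HasFlash c l ∨ HasRainbow c k := by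
  classical
  by_contra hcon
  rw [not_or] at hcon
  let c' : ℕ → ℕ → ℕ := fun a b => if h : a < n ∧ b < n then c s(⟨a, h.1⟩, ⟨b, h.2⟩) else 0
  have hc' : ∀ a b : Fin n, c' a b = c s(a, b) := fun a b => by
    simp only [c', a.2, b.2, and_self, dif_pos]
  have h1 : NoFl c' (Finset.range n) l := by
    intro a v j p
    by_contra hj
    obtain ⟨z, -, h2, h3⟩ := p.seq
    let y : Fin (l + 1) → Fin n := fun i => ⟨z i, Finset.mem_range.1 (h2 i (by omega))⟩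
    have h4 : ∀ i : Fin l, c s(y i.castSucc, y i.succ) = a := fun i => by
      rw [← hc']; exact (h3 i (by omega)).2
    exact hcon.1 ⟨y, Fin.strictMono_iff_lt_succ.2 fun i => (h3 i (by omega)).1,
      fun i j => by rw [h4, h4]⟩
  have h2 : NoRb c' (Finset.range n) k := by
    intro s v A p
    by_contra hj
    obtain ⟨z, -, h2, h3, h4⟩ := p.seq
    let y : Fin (k + 1) → Fin n := fun i => ⟨z i, Finset.mem_range.1 (h2 i (by omega))⟩
    refine hcon.2 ⟨y, Fin.strictMono_iff_lt_succ.2 fun i => (h3 i (by omega)).1,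
      fun i j hij => ?_⟩
    dsimp only at hij
    rw [← hc', ← hc'] at hij
    by_contra hne
    rcases lt_or_gt_of_ne hne with hlt | hlt
    · exact h4 j (by omega) i hlt hij
    · exact h4 i (by omega) j hlt hij.symm
  have := h c' _ h1 h2
  rw [Finset.card_range] at this
  linarith

theorem result : ∀ ε : ℝ, 0 < ε → ∃ C : ℝ, ∀ l k : ℕ, 1 ≤ l → 1 ≤ k → ∃ f : ℕ,
    IsLeast {N : ℕ | ∀ n : ℕ, N < n → ∀ c : Sym2 (Fin n) → ℕ, HasFlash c l ∨ HasRainbow c k} f ∧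
      (f : ℝ) ≤ C * (k : ℝ) ^ (2 / 3 + ε) * (l : ℝ) ^ (k - 1) := by
  intro ε hε
  obtain ⟨C, hC, h⟩ := Pool.Agent.P.MP_f298ee_co.bd_all hε
  refine ⟨C, fun l k hl hk => ?_⟩
  have h0 : 0 ≤ C * (k : ℝ) ^ (2 / 3 + ε) * (l : ℝ) ^ (k - 1) := by
    have : 0 ≤ C := by linarith
    positivity
  have hmem : ⌊C * (k : ℝ) ^ (2 / 3 + ε) * (l : ℝ) ^ (k - 1)⌋₊ ∈
      {N : ℕ | ∀ n : ℕ, N < n → ∀ c : Sym2 (Fin n) → ℕ, HasFlash c l ∨ HasRainbow c k} :=
    fun n hn c => aux (h l k hl hk) ((Nat.floor_lt h0).1 hn) c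
  refine ⟨sInf _, ⟨Nat.sInf_mem ⟨_, hmem⟩, fun N hN => Nat.sInf_le hN⟩, ?_⟩
  exact le_trans (by exact_mod_cast Nat.sInf_le hmem) (Nat.floor_le h0)

end Pool.Agent.Results.MP_f298ee_co.FlashRainbow
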